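import Pool.Agent.E8helper91.Twist.Proof

/-!
# The twist graph of the colorful triangulations of the convex 14-gon is connected

The definitions used by the statement are in `Pool/Agent/E8helper91/Twist/Defs.lean`.
-/

set_option autoImplicit false

namespace Pool.Agent.Results.MP_b57ad3_co.TwistConnectedH91

open Pool.Agent.E8helper91.Twist

/-- The graph `H_14` of the colorful triangulations of the convex 14-gon and the twists is
connected. So it is not true that `H_N` is not connected for all `N ≥ 8` with `N ≡ 2 mod 3`. -/
theorem result : (twistGraph 14).Connected ∧
    ¬ ∀ N : ℕ, 8 ≤ N → N % 3 = 2 → ¬ (twistGraph N).Connected :=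
  ⟨connected, fun h => h 14 (by norm_num) (by norm_num) connected⟩

end Pool.Agent.Results.MP_b57ad3_co.TwistConnectedH91
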